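import Pool.Agent.V1180.CPg

set_option autoImplicit false

/-!
# MP_57aba6_an, Q2: a four-point set on which critically constrained polynomials are dense
-/

namespace Pool.Agent.Results.MP_57aba6_an.FourPointSet

open Polynomial

/-- All critical points of `p` (all complex zeros of the derivative) lie in `X`. -/
def CritIn (X : Set ℝ) (p : ℝ[X]) : Prop :=
  ∀ z : ℂ, aeval z (derivative p) = 0 → ∃ x ∈ X, z = ((x : ℝ) : ℂ)

/-- `CP(X) = C(X)`: every real function continuous on `X` is a uniform limit on `X` of real polynomials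
all of whose critical points lie in `X`. -/
def CPDense (X : Set ℝ) : Prop :=
  ∀ f : ℝ → ℝ, ContinuousOn f X → ∀ ε : ℝ, 0 < ε →
    ∃ p : ℝ[X], CritIn X p ∧ ∀ x ∈ X, |p.eval x - f x| < ε

/-- There is a disconnected compact set with exactly four points on which the polynomials with all
critical points in the set are dense; it is of the form `{-c, -s, s, c}` with `0 < s < c`. -/
theorem result : ∃ s c : ℝ, 0 < s ∧ s < c ∧ IsCompact ({-c, -s, s, c} : Set ℝ) ∧
    ¬ IsConnected ({-c, -s, s, c} : Set ℝ) ∧ ({-c, -s, s, c} : Set ℝ).ncard = 4 ∧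
    CPDense ({-c, -s, s, c} : Set ℝ) := by
  obtain ⟨s, c, hs, hsc, h⟩ := Pool.Agent.V1180.CP.main
  have hfin : ({-c, -s, s, c} : Set ℝ).Finite := by simp
  refine ⟨s, c, hs, hsc, hfin.isCompact, ?_, ?_, fun f _ ε hε => h f ε hε⟩
  · intro hcon
    have hsub := hcon.isPreconnected.Icc_subset (a := -c) (b := c) (by simp) (by simp)
    have h0 : (0 : ℝ) ∈ ({-c, -s, s, c} : Set ℝ) := hsub ⟨by linarith, by linarith⟩
    simp only [Set.mem_insert_iff, Set.mem_singleton_iff] at h0
    rcases h0 with h0 | h0 | h0 | h0 <;> linarith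
  · have e : ({-c, -s, s, c} : Set ℝ) = ((({-c, -s, s, c} : Finset ℝ)) : Set ℝ) := by simp
    rw [e, Set.ncard_coe_finset, Finset.card_insert_of_notMem, Finset.card_insert_of_notMem,
      Finset.card_insert_of_notMem, Finset.card_singleton]
    · rw [Finset.mem_singleton]
      intro h1
      linarith
    · rw [Finset.mem_insert, Finset.mem_singleton]
      rintro (h1 | h1) <;> linarith
    · rw [Finset.mem_insert, Finset.mem_insert, Finset.mem_singleton]
      rintro (h1 | h1 | h1) <;> linarith

end Pool.Agent.Results.MP_57aba6_an.FourPointSet
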